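import Pool.Agent.H.MP_aeebd3_an.B

set_option autoImplicit false

namespace Pool.Agent.H.MP_20ef18_an

open Finset
open scoped ComplexConjugate

/-- the bilinear form of `A` is bounded by `M` on the unit polydiscs -/
def Bd {m n : Type} [Fintype m] [Fintype n] (A : m → n → ℂ) (M : ℝ) : Prop :=
  ∀ (p : m → ℂ) (q : n → ℂ), (∀ i, ‖p i‖ ≤ 1) → (∀ j, ‖q j‖ ≤ 1) →
    ‖∑ i, ∑ j, A i j * p i * q j‖ ≤ M

lemma Bd.nonneg {m n : Type} [Fintype m] [Fintype n] {A : m → n → ℂ} {M : ℝ} (h : Bd A M) :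
    0 ≤ M := (norm_nonneg _).trans (h 0 0 (by simp) (by simp))

noncomputable def K : ℝ := Real.pi / (2 * Real.arsinh 1) * (4 + 2 * √2) / 8

lemma K_pos : 0 < K := by
  have : 0 < Real.arsinh 1 := Real.arsinh_pos_iff.2 one_pos
  unfold K; positivity

lemma G1 {m n ι : Type} [Fintype m] [Fintype n] [Fintype ι] {A : m → n → ℂ} {M : ℝ}
    (hM : Bd A M) (u : m → ι → ℂ) (v : n → ι → ℂ) (hu : ∀ i, ∑ t, ‖u i t‖ ^ 2 ≤ 1)
    (hv : ∀ j, ∑ t, ‖v j t‖ ^ 2 ≤ 1) :
    (∑ i, ∑ j, A i j * ∑ t, u i t * v j t).re ≤ K * M := by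
  let U : m → EuclideanSpace ℂ (ι ⊕ Bool) := fun i => WithLp.toLp 2
    (Sum.elim (fun t => conj (u i t)) fun b => if b then ((√(1 - ∑ t, ‖u i t‖ ^ 2) : ℝ) : ℂ) else 0)
  let V : n → EuclideanSpace ℂ (ι ⊕ Bool) := fun j => WithLp.toLp 2
    (Sum.elim (fun t => v j t) fun b => if b then 0 else ((√(1 - ∑ t, ‖v j t‖ ^ 2) : ℝ) : ℂ))
  have h := MP_aeebd3_an.krivineC U V (fun i => ?_) (fun j => ?_) A M
    fun p q hp hq => hM p q (fun i => (hp i).le) fun j => (hq j).le
  · refine le_of_eq_of_le ?_ h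
    congr 1
    refine sum_congr rfl fun i _ => sum_congr rfl fun j _ => ?_
    congr 1
    simp [U, V, PiLp.inner_apply, mul_comm]
  · rw [EuclideanSpace.norm_eq, Real.sqrt_eq_one]
    simp [U, Real.sq_sqrt (sub_nonneg.2 (hu i))]
  · rw [EuclideanSpace.norm_eq, Real.sqrt_eq_one]
    simp [V, Real.sq_sqrt (sub_nonneg.2 (hv j))]

lemma G2 {m n ι : Type} [Fintype m] [Fintype n] [Fintype ι] {A : m → n → ℂ} {M : ℝ}
    (hM : Bd A M) (u : m → ι → ℂ) (v : n → ι → ℂ) {a b : ℝ} (ha : 0 ≤ a) (hb : 0 ≤ b)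
    (hu : ∀ i, ∑ t, ‖u i t‖ ^ 2 ≤ a ^ 2) (hv : ∀ j, ∑ t, ‖v j t‖ ^ 2 ≤ b ^ 2) :
    ‖∑ i, ∑ j, A i j * ∑ t, u i t * v j t‖ ≤ K * M * a * b := by
  have h0 := hM.nonneg
  have hK := K_pos
  rcases ha.eq_or_lt with rfl | ha
  · have : ∀ i t, u i t = 0 := fun i t => by
      have := (sum_eq_zero_iff_of_nonneg fun t _ => sq_nonneg ‖u i t‖).1
        (le_antisymm (by simpa using hu i) (sum_nonneg fun t _ => sq_nonneg _)) t (mem_univ _)
      simpa using this
    simp [this]
  rcases hb.eq_or_lt with rfl | hb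
  · have : ∀ i t, v i t = 0 := fun i t => by
      have := (sum_eq_zero_iff_of_nonneg fun t _ => sq_nonneg ‖v i t‖).1
        (le_antisymm (by simpa using hv i) (sum_nonneg fun t _ => sq_nonneg _)) t (mem_univ _)
      simpa using this
    simp [this]
  obtain ⟨c, hc, e⟩ := RCLike.exists_norm_eq_mul_self (∑ i, ∑ j, A i j * ∑ t, u i t * v j t)
  have h := G1 hM (fun i t => c * u i t / a) (fun j t => v j t / b) (fun i => ?_) fun j => ?_
  · have e2 : (∑ i, ∑ j, A i j * ∑ t, c * u i t / a * (v j t / b)) =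
        (c * ∑ i, ∑ j, A i j * ∑ t, u i t * v j t) / ((a * b : ℝ) : ℂ) := by
      simp only [mul_sum, sum_div]
      refine sum_congr rfl fun i _ => sum_congr rfl fun j _ => sum_congr rfl fun t _ => ?_
      push_cast
      field_simp
    rw [e2, ← e] at h
    have e3 : ∀ r s : ℝ, ((RCLike.ofReal r : ℂ) / (s : ℂ)).re = r / s := fun r s => by
      rw [show (RCLike.ofReal r : ℂ) = (r : ℂ) from rfl, ← Complex.ofReal_div, Complex.ofReal_re]
    rw [e3, div_le_iff₀ (by positivity)] at h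
    linarith
  · simp only [norm_div, norm_mul, hc, one_mul, div_pow, ← sum_div, Complex.norm_real,
      Real.norm_eq_abs, sq_abs]
    exact (div_le_one (by positivity)).2 (hu i)
  · simp only [norm_div, div_pow, ← sum_div, Complex.norm_real, Real.norm_eq_abs, sq_abs]
    exact (div_le_one (by positivity)).2 (hv j)

/-- Pietsch domination -/
lemma pietsch {m n : Type} [Fintype m] [Fintype n] [Nonempty m] [Nonempty n] {A : m → n → ℂ}
    {M : ℝ} (hM : Bd A M) : ∃ (μ : m → ℝ) (ν : n → ℝ), (∀ i, 0 ≤ μ i) ∧ (∀ j, 0 ≤ ν j) ∧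
      ∑ i, μ i = 1 ∧ ∑ j, ν j = 1 ∧ ∀ (x : m → ℂ) (y : n → ℂ),
        (∑ i, ∑ j, A i j * x i * y j).re ≤
          K * M / 2 * (∑ i, μ i * ‖x i‖ ^ 2 + ∑ j, ν j * ‖y j‖ ^ 2) := by
  classical
  have h0 := hM.nonneg
  have hK := K_pos
  let F : (m → ℂ) × (n → ℂ) → m × n → ℝ := fun z p =>
    K * M / 2 * (‖z.1 p.1‖ ^ 2 + ‖z.2 p.2‖ ^ 2) - (∑ i, ∑ j, A i j * z.1 i * z.2 j).re
  have hs : IsOpen {g : m × n → ℝ | ∀ p, g p < 0} := by
    rw [Set.ofPred_forall]
    exact isOpen_iInter_of_finite fun p => isOpen_lt (continuous_apply p) continuous_const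
  have hc : Convex ℝ {g : m × n → ℝ | ∀ p, g p < 0} := by
    rw [Set.ofPred_forall]
    exact convex_iInter fun p => convex_halfSpace_lt (LinearMap.proj (R := ℝ) p).isLinear 0
  have hd : Disjoint {g : m × n → ℝ | ∀ p, g p < 0} (convexHull ℝ (Set.range F)) := by
    rw [Set.disjoint_left]
    intro g hg hg2
    obtain ⟨ι, _, w, z, hw, hw1, hz, rfl⟩ := mem_convexHull_iff_exists_fintype.1 hg2
    choose Z hZ using hz
    let u : m → ι → ℂ := fun i t => (√(w t) : ℝ) * (Z t).1 i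
    let v : n → ι → ℂ := fun j t => (√(w t) : ℝ) * (Z t).2 j
    obtain ⟨i0, hi0⟩ := Finite.exists_max fun i => ∑ t, ‖u i t‖ ^ 2
    obtain ⟨j0, hj0⟩ := Finite.exists_max fun j => ∑ t, ‖v j t‖ ^ 2
    have ha : 0 ≤ ∑ t, ‖u i0 t‖ ^ 2 := sum_nonneg fun _ _ => sq_nonneg _
    have hb : 0 ≤ ∑ t, ‖v j0 t‖ ^ 2 := sum_nonneg fun _ _ => sq_nonneg _
    have h1 := (Complex.re_le_norm _).trans (G2 hM u v (Real.sqrt_nonneg _) (Real.sqrt_nonneg _)
      (fun i => (hi0 i).trans (Real.sq_sqrt ha).ge) fun j => (hj0 j).trans (Real.sq_sqrt hb).ge)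
    have h2 := hg (i0, j0)
    have e1 : (∑ t, w t • z t) (i0, j0) = K * M / 2 * (∑ t, ‖u i0 t‖ ^ 2 + ∑ t, ‖v j0 t‖ ^ 2) -
        (∑ i, ∑ j, A i j * ∑ t, u i t * v j t).re := by
      have e2 : (∑ i, ∑ j, A i j * ∑ t, u i t * v j t) =
          ∑ t, (w t : ℂ) * ∑ i, ∑ j, A i j * (Z t).1 i * (Z t).2 j := by
        simp only [mul_sum]
        rw [sum_comm (s := (univ : Finset ι))]
        refine sum_congr rfl fun i _ => ?_
        rw [sum_comm (s := (univ : Finset ι))]
        refine sum_congr rfl fun j _ => sum_congr rfl fun t _ => ?_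
        have : ((√(w t) : ℝ) : ℂ) * (√(w t) : ℝ) = w t := by
          rw [← Complex.ofReal_mul, Real.mul_self_sqrt (hw t)]
        simp only [u, v]
        rw [← this]; ring
      rw [e2, Complex.re_sum, ← sum_add_distrib, mul_sum, ← sum_sub_distrib, Finset.sum_apply]
      refine sum_congr rfl fun t _ => ?_
      simp only [← hZ t, F, u, v, Pi.smul_apply, smul_eq_mul, Complex.re_ofReal_mul, norm_mul,
        mul_pow, Complex.norm_real, Real.norm_eq_abs, sq_abs, Real.sq_sqrt (hw t)]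
      ring
    rw [e1] at h2
    have h3 := Real.sq_sqrt ha
    have h4 := Real.sq_sqrt hb
    have h5 : 0 ≤ K * M := by positivity
    nlinarith [mul_nonneg h5 (sq_nonneg (√(∑ t, ‖u i0 t‖ ^ 2) - √(∑ t, ‖v j0 t‖ ^ 2)))]
  obtain ⟨f, s, h1, h2⟩ := geometric_hahn_banach_open hc hs (convex_convexHull ℝ _) hd
  have h3 : ∀ z, s ≤ f (F z) := fun z => h2 _ (subset_convexHull ℝ _ ⟨z, rfl⟩)
  have s0 : s ≤ 0 := by
    have := h3 0
    rwa [show F 0 = 0 by ext p; simp [F], map_zero] at this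
  let l : m × n → ℝ := fun p => f (Pi.single p 1)
  have hf : ∀ g, f g = ∑ p, l p * g p := fun g => by
    conv_lhs => rw [← univ_sum_single g]
    rw [map_sum]
    refine sum_congr rfl fun p _ => ?_
    rw [show Pi.single p (g p) = g p • (Pi.single p 1 : m × n → ℝ) by
      rw [← Pi.single_smul]; simp, map_smul, smul_eq_mul, mul_comm]
  have hS : 0 < ∑ p, l p := by
    have := h1 (fun _ => -1) fun p => by norm_num
    rw [hf] at this
    simp only [mul_neg, mul_one, sum_neg_distrib] at this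
    linarith
  have hl : ∀ p, 0 ≤ l p := fun p => by
    by_contra hn
    push Not at hn
    have := h1 ((fun _ => -1) + ((∑ p, l p) / l p) • Pi.single p 1) fun q => by
      have : (∑ p, l p) / l p < 0 := div_neg_of_pos_of_neg hS hn
      by_cases hq : q = p
      · subst hq; simp; linarith
      · simp [hq]
    rw [map_add, map_smul, hf] at this
    simp only [mul_neg, mul_one, sum_neg_distrib, smul_eq_mul] at this
    rw [div_mul_cancel₀ _ hn.ne] at this
    linarith
  have h4 : ∀ z, 0 ≤ f (F z) := fun z => by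
    by_contra hn
    push Not at hn
    have := h3 (((√(s / f (F z) + 1) : ℝ) : ℂ) • z)
    have hp : 0 ≤ s / f (F z) + 1 := by
      have := div_nonneg_of_nonpos s0 hn.le
      linarith
    have e : F (((√(s / f (F z) + 1) : ℝ) : ℂ) • z) = (s / f (F z) + 1) • F z := by
      generalize s / f (F z) + 1 = r at hp
      ext p
      have e2 : (∑ i, ∑ j, A i j * (((√r : ℝ) : ℂ) * z.1 i) * (((√r : ℝ) : ℂ) * z.2 j)) =
          (r : ℂ) * ∑ i, ∑ j, A i j * z.1 i * z.2 j := by
        simp only [mul_sum]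
        refine sum_congr rfl fun i _ => sum_congr rfl fun j _ => ?_
        have : ((√r : ℝ) : ℂ) * (√r : ℝ) = r := by
          rw [← Complex.ofReal_mul, Real.mul_self_sqrt hp]
        conv_rhs => rw [← this]
        ring
      simp only [F, Prod.smul_fst, Prod.smul_snd, Pi.smul_apply, smul_eq_mul, e2,
        Complex.re_ofReal_mul, norm_mul, mul_pow, Complex.norm_real, Real.norm_eq_abs, sq_abs,
        Real.sq_sqrt hp]
      ring
    rw [e, map_smul, smul_eq_mul, add_mul, div_mul_cancel₀ _ hn.ne] at this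
    linarith
  refine ⟨fun i => (∑ j, l (i, j)) / ∑ p, l p, fun j => (∑ i, l (i, j)) / ∑ p, l p,
    fun i => div_nonneg (sum_nonneg fun _ _ => hl _) hS.le,
    fun j => div_nonneg (sum_nonneg fun _ _ => hl _) hS.le, ?_, ?_, fun x y => ?_⟩
  · rw [← sum_div, ← Fintype.sum_prod_type, div_self hS.ne']
  · rw [← sum_div, ← Fintype.sum_prod_type_right, div_self hS.ne']
  · have := h4 (x, y)
    rw [hf] at this
    simp only [F, mul_sub, sum_sub_distrib, ← sum_mul] at this
    have e : ∑ p, l p * (K * M / 2 * (‖x p.1‖ ^ 2 + ‖y p.2‖ ^ 2)) =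
        K * M / 2 * (∑ i, (∑ j, l (i, j)) * ‖x i‖ ^ 2 + ∑ j, (∑ i, l (i, j)) * ‖y j‖ ^ 2) := by
      simp only [sum_mul]
      rw [sum_comm (s := (univ : Finset n)), ← sum_add_distrib, mul_sum, Fintype.sum_prod_type]
      refine sum_congr rfl fun i _ => ?_
      rw [← sum_add_distrib, mul_sum]
      refine sum_congr rfl fun j _ => by ring
    rw [e] at this
    simp only [div_mul_eq_mul_div, ← sum_div, ← add_div, ← mul_div_assoc]
    rw [le_div_iff₀ hS]
    linarith

/-- tensor products of bounded forms -/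
lemma tens {I J P Q : Type} [Fintype I] [Fintype J] [Fintype P] [Fintype Q] [Nonempty P]
    [Nonempty Q] {γ : I → J → ℂ} {δ : P → Q → ℂ} {a b : ℝ} (ha : Bd γ a) (hb : Bd δ b)
    (X : I → P → ℂ) (Y : J → Q → ℂ) (hX : ∀ i p, ‖X i p‖ ≤ 1) (hY : ∀ j q, ‖Y j q‖ ≤ 1) :
    ‖∑ i, ∑ j, γ i j * ∑ p, ∑ q, δ p q * X i p * Y j q‖ ≤ 2 * K ^ 2 * a * b := by
  obtain ⟨μ, ν, hμ, hν, μ1, ν1, h⟩ := pietsch hb
  have hK := K_pos
  have b0 := hb.nonneg
  have cP : (0 : ℝ) < Fintype.card P := by exact_mod_cast Fintype.card_pos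
  let κ : P → ℝ := fun p => μ p + 1 / Fintype.card P
  have hκ : ∀ p, 0 < κ p := fun p => add_pos_of_nonneg_of_pos (hμ p) (by positivity)
  have κ2 : ∑ p, κ p = 2 := by
    simp only [κ, sum_add_distrib, μ1, sum_const, card_univ, nsmul_eq_mul]
    field_simp; norm_num
  have h2 := G2 ha (fun i p => (√(κ p) : ℝ) * X i p)
    (fun j p => (∑ q, δ p q * Y j q) / (√(κ p) : ℝ)) (a := 2) (b := K * b) (by norm_num)
    (by positivity) (fun i => ?_) fun j => ?_
  · refine le_of_eq_of_le ?_ (h2.trans_eq (by ring))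
    congr 1
    refine sum_congr rfl fun i _ => sum_congr rfl fun j _ => ?_
    congr 1
    refine sum_congr rfl fun p _ => ?_
    have : ((√(κ p) : ℝ) : ℂ) ≠ 0 := by exact_mod_cast (Real.sqrt_pos.2 (hκ p)).ne'
    field_simp
    rw [mul_sum]
    exact sum_congr rfl fun q _ => by ring
  · calc _ ≤ ∑ p, κ p := sum_le_sum fun p _ => by
          simp only [norm_mul, mul_pow, Complex.norm_real, Real.norm_eq_abs, sq_abs,
            Real.sq_sqrt (hκ p).le]
          exact mul_le_of_le_one_right (hκ p).le (pow_le_one₀ (norm_nonneg _) (hX i p))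
      _ ≤ 2 ^ 2 := by rw [κ2]; norm_num
  · simp only [norm_div, div_pow, Complex.norm_real, Real.norm_eq_abs, sq_abs,
      Real.sq_sqrt (hκ _).le]
    set s := ∑ p, ‖∑ q, δ p q * Y j q‖ ^ 2 / κ p with hs
    have s0 : 0 ≤ s := sum_nonneg fun p _ => div_nonneg (sq_nonneg _) (hκ p).le
    have key : ∀ r : ℝ, r * s ≤ K * b / 2 * (r ^ 2 * s + 1) := fun r => by
      have := h (fun p => (r / κ p : ℝ) * conj (∑ q, δ p q * Y j q)) (Y j)
      have e : (∑ p, ∑ q, δ p q * ((r / κ p : ℝ) * conj (∑ q, δ p q * Y j q)) * Y j q) =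
          ((r * s : ℝ) : ℂ) := by
        rw [hs, mul_sum, Complex.ofReal_sum]
        refine sum_congr rfl fun p _ => ?_
        have e1 := Complex.conj_mul' (∑ q, δ p q * Y j q)
        calc _ = ((r / κ p : ℝ) : ℂ) * (conj (∑ q, δ p q * Y j q) * ∑ q, δ p q * Y j q) := by
              generalize conj (∑ q, δ p q * Y j q) = w
              simp only [mul_sum]
              exact sum_congr rfl fun q _ => by ring
          _ = _ := by rw [e1]; push_cast; ring
      rw [e, Complex.ofReal_re] at this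
      refine this.trans (mul_le_mul_of_nonneg_left (add_le_add ?_ ?_) (by positivity))
      · rw [hs, mul_sum]
        refine sum_le_sum fun p _ => ?_
        have k := hκ p
        have : μ p ≤ κ p := le_add_of_nonneg_right (by positivity)
        simp only [norm_mul, mul_pow, Complex.norm_real, Real.norm_eq_abs, sq_abs,
          Complex.norm_conj]
        calc _ ≤ κ p * ((r / κ p) ^ 2 * ‖∑ q, δ p q * Y j q‖ ^ 2) := by gcongr
          _ = _ := by field_simp
      · rw [← ν1]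
        exact sum_le_sum fun q _ =>
          mul_le_of_le_one_right (hν q) (pow_le_one₀ (norm_nonneg _) (hY j q))
    rcases (by positivity : 0 ≤ K * b).eq_or_lt with e | e
    · have := key 1
      rw [← e] at this ⊢
      linarith
    · have := key (1 / (K * b))
      generalize K * b = c at *
      have e2 : c / 2 * ((1 / c) ^ 2 * s + 1) = 1 / c * s / 2 + c / 2 := by field_simp
      rw [e2] at this
      have h3 : 1 / c * s ≤ c := by linarith
      rw [one_div, inv_mul_le_iff₀ e] at h3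
      linarith

end Pool.Agent.H.MP_20ef18_an
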