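import Pool.Agent.H.MP_20ef18_an.A

set_option autoImplicit false

namespace Pool.Agent.H.MP_20ef18_an

open Finset

/-- the convolution of two matrices -/
noncomputable def cv (γ δ : ℕ → ℕ → ℂ) (p q : ℕ) : ℂ :=
  ∑ a ∈ HasAntidiagonal.antidiagonal p, ∑ b ∈ HasAntidiagonal.antidiagonal q, γ a.1 b.1 * δ a.2 b.2

lemma cv_diag (γ δ : ℕ → ℕ → ℂ) (n : ℕ) : ∑ p ∈ HasAntidiagonal.antidiagonal n, cv γ δ p.1 p.2 =
    ∑ p ∈ HasAntidiagonal.antidiagonal n, (∑ a ∈ HasAntidiagonal.antidiagonal p.1, γ a.1 a.2) *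
      ∑ b ∈ HasAntidiagonal.antidiagonal p.2, δ b.1 b.2 := by
  simp only [cv, sum_mul_sum, sum_sigma']
  refine sum_nbij' (fun x => ⟨(x.2.1.1 + x.2.2.1, x.2.1.2 + x.2.2.2),
      ⟨(x.2.1.1, x.2.2.1), (x.2.1.2, x.2.2.2)⟩⟩)
    (fun x => ⟨(x.2.1.1 + x.2.2.1, x.2.1.2 + x.2.2.2),
      ⟨(x.2.1.1, x.2.2.1), (x.2.1.2, x.2.2.2)⟩⟩) ?_ ?_ ?_ ?_ ?_
  · rintro ⟨⟨p, q⟩, ⟨m, j⟩, ⟨k, l⟩⟩
    simp only [mem_sigma, HasAntidiagonal.mem_antidiagonal, and_true]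
    omega
  · rintro ⟨⟨p, q⟩, ⟨m, j⟩, ⟨k, l⟩⟩
    simp only [mem_sigma, HasAntidiagonal.mem_antidiagonal, and_true]
    omega
  · rintro ⟨⟨p, q⟩, ⟨m, j⟩, ⟨k, l⟩⟩
    simp only [mem_sigma, HasAntidiagonal.mem_antidiagonal]
    rintro ⟨-, rfl, rfl⟩
    rfl
  · rintro ⟨⟨p, q⟩, ⟨m, j⟩, ⟨k, l⟩⟩
    simp only [mem_sigma, HasAntidiagonal.mem_antidiagonal]
    rintro ⟨-, rfl, rfl⟩
    rfl
  · rintro ⟨⟨p, q⟩, ⟨m, j⟩, ⟨k, l⟩⟩ -
    rfl

lemma tri (N : ℕ) (g : ℕ → ℕ → ℂ) : ∑ p ∈ range N, ∑ a ∈ HasAntidiagonal.antidiagonal p, g a.1 a.2 =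
    ∑ m : Fin N, ∑ j : Fin N, if m.1 + j.1 < N then g m j else 0 := by
  rw [Fin.sum_univ_eq_sum_range (fun m => ∑ j : Fin N, if m + j.1 < N then g m j else 0)]
  simp only [fun m => Fin.sum_univ_eq_sum_range (fun j => if m + j < N then g m j else 0) N]
  rw [sum_sigma', ← sum_product', ← sum_filter]
  refine sum_nbij' (fun x => x.2) (fun x => ⟨x.1 + x.2, x⟩) ?_ ?_ ?_ ?_ ?_
  · rintro ⟨p, m, j⟩
    simp only [mem_sigma, HasAntidiagonal.mem_antidiagonal, mem_range, mem_filter, mem_product]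
    omega
  · rintro ⟨m, j⟩
    simp only [mem_sigma, HasAntidiagonal.mem_antidiagonal, mem_range, mem_filter, mem_product, and_true]
    omega
  · rintro ⟨p, m, j⟩
    simp only [mem_sigma, HasAntidiagonal.mem_antidiagonal, mem_range]
    rintro ⟨-, rfl⟩
    rfl
  · rintro ⟨m, j⟩ -
    rfl
  · rintro ⟨p, m, j⟩ -
    rfl

/-- bounded on all truncations -/
def BN (γ : ℕ → ℕ → ℂ) (M : ℝ) : Prop :=
  ∀ (N : ℕ) (x y : ℕ → ℂ), (∀ m, ‖x m‖ ≤ 1) → (∀ k, ‖y k‖ ≤ 1) →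
    ‖∑ m ∈ range N, ∑ k ∈ range N, γ m k * x m * y k‖ ≤ M

lemma BN.bd {γ : ℕ → ℕ → ℂ} {M : ℝ} (h : BN γ M) (N : ℕ) :
    Bd (fun m k : Fin N => γ m k) M := fun p q hp hq => by
  have := h N (fun m => if h : m < N then p ⟨m, h⟩ else 0)
    (fun m => if h : m < N then q ⟨m, h⟩ else 0)
    (fun m => by split_ifs <;> simp [hp]) (fun m => by split_ifs <;> simp [hq])
  simpa only [sum_range, Fin.is_lt, dite_true] using this

lemma BN.cv {γ δ : ℕ → ℕ → ℂ} {a b : ℝ} (ha : BN γ a) (hb : BN δ b) :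
    BN (cv γ δ) (2 * K ^ 2 * a * b) := fun N x y hx hy => by
  rcases N with _ | N
  · have := (ha.bd 0).nonneg
    have := (hb.bd 0).nonneg
    simp only [range_zero, sum_empty, norm_zero]
    positivity
  refine le_of_eq_of_le ?_ (tens (ha.bd (N + 1)) (hb.bd (N + 1))
    (fun m j => if m.1 + j.1 < N + 1 then x (m + j) else 0)
    (fun m j => if m.1 + j.1 < N + 1 then y (m + j) else 0)
    (fun m j => by split_ifs <;> simp [hx]) fun m j => by split_ifs <;> simp [hy])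
  congr 1
  generalize N + 1 = N
  have e1 : ∑ p ∈ range N, ∑ q ∈ range N, MP_20ef18_an.cv γ δ p q * x p * y q =
      ∑ p ∈ range N, ∑ a ∈ HasAntidiagonal.antidiagonal p, ∑ q ∈ range N, ∑ b ∈ HasAntidiagonal.antidiagonal q,
        γ a.1 b.1 * δ a.2 b.2 * x (a.1 + a.2) * y (b.1 + b.2) := by
    refine sum_congr rfl fun p _ => ?_
    rw [sum_comm]
    refine sum_congr rfl fun q _ => ?_
    simp only [MP_20ef18_an.cv, sum_mul]
    refine sum_congr rfl fun a ha => sum_congr rfl fun b hb => ?_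
    rw [HasAntidiagonal.mem_antidiagonal.1 ha, HasAntidiagonal.mem_antidiagonal.1 hb]
  rw [e1, tri N fun m j => ∑ q ∈ range N, ∑ b ∈ HasAntidiagonal.antidiagonal q,
    γ m b.1 * δ j b.2 * x (m + j) * y (b.1 + b.2)]
  refine sum_congr rfl fun m _ => ?_
  simp only [mul_sum]
  rw [sum_comm]
  refine sum_congr rfl fun j _ => ?_
  rw [tri N fun k l => γ m k * δ j l * x (m + j) * y (k + l)]
  split_ifs
  · refine sum_congr rfl fun k _ => sum_congr rfl fun l _ => ?_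
    split_ifs
    · ring
    · simp
  · simp

lemma coef_mul {φ ψ : ℂ → ℂ} (hφ : AnalyticAt ℂ φ 0) (hψ : AnalyticAt ℂ ψ 0) (n : ℕ) :
    iteratedDeriv n (φ * ψ) 0 / n.factorial = ∑ p ∈ HasAntidiagonal.antidiagonal n,
      iteratedDeriv p.1 φ 0 / p.1.factorial * (iteratedDeriv p.2 ψ 0 / p.2.factorial) := by
  rw [iteratedDeriv_mul hφ.contDiffAt hψ.contDiffAt, Nat.sum_antidiagonal_eq_sum_range_succ
    (fun i j => iteratedDeriv i φ 0 / i.factorial * (iteratedDeriv j ψ 0 / j.factorial)), sum_div]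
  refine sum_congr rfl fun i hi => ?_
  have hi : i ≤ n := Nat.lt_succ_iff.1 (mem_range.1 hi)
  have h1 : (i.factorial : ℂ) ≠ 0 := by exact_mod_cast i.factorial_ne_zero
  have h2 : ((n - i).factorial : ℂ) ≠ 0 := by exact_mod_cast (n - i).factorial_ne_zero
  have h3 : (n.factorial : ℂ) ≠ 0 := by exact_mod_cast n.factorial_ne_zero
  rw [Nat.cast_choose ℂ hi]
  field_simp

end Pool.Agent.H.MP_20ef18_an
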